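import Pool.Agent.Lib.MP_e1f7e2_al.FA.H52.Tools

/-!
Project FA, module SIXA.
-/

set_option autoImplicit false

namespace Pool.Agent.Lib.MP_e1f7e2_al.FA.H52

open Pool.Agent.Lib.MP_e1f7e2_al.FA

theorem sixa (K : Type*) [Field K] (w : Fin 3 → ℝ) (hw : Gen w) (F : Facts K w) :
    SixaStatement K w := by
  intro ν l m f fs m' H hC hcase
  obtain ⟨⟨hfr, hor, hvd, hq, hdlt, hmn, hred⟩, hq', hdle⟩ := hC
  have hν : dg w l + dg w m + dg w f = ν := by rw [← hvd, F.v.eq l m f hfr hor]
  have hl : 0 < dg w l := F.f.pos _ _ _ hfr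
  have hm : 0 < dg w m := F.f.pos _ _ _ (F.f.p12 _ _ _ hfr)
  have hf : 0 < dg w f := F.f.pos _ _ _ (F.f.p12 _ _ _ (F.f.p23 _ _ _ hfr))
  have hU : RF w l m fs := by
    refine ⟨(F.f.adjm l m f fs hfr ?_).1, hred⟩
    exact mem_sub_comm hq
  -- I.1
  have I1 : Dv w m l → Red w (sp l f m') := by
    intro hdv
    obtain ⟨_, _, c, j, hc, hj, _, hlt⟩ := F.e.dv' m l hm hdv
    set R : Polynomial K := Polynomial.C c * Polynomial.X ^ j with hR
    have hRa : Polynomial.aeval l R = c • l ^ j := aeval_mono l c j
    rw [← hRa] at hlt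
    set m1 := m - Polynomial.aeval l R with hm1
    have s1 : RF w l fs m1 := by
      refine (hU.p23 F).move F H.ha (by linarith) ?_
      have : m1 - m = - Polynomial.aeval l R := by rw [hm1]; abel
      rw [this]
      exact neg_mem (poly_mem F fs l R)
    have s2 : RF w l m1 f := by
      refine (s1.p23 F).move F H.ha (by linarith) ?_
      rw [hm1, B_sub_aeval' F]
      exact hq
    have s3 : RF w l f m' := by
      refine (s2.p23 F).move F H.ha (by linarith) ?_
      have : m' - m1 = Polynomial.aeval l R - (m - m') := by rw [hm1]; abel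
      rw [this]
      exact sub_mem (poly_mem F f l R) hq'
    exact s3.2
  -- I.2
  have I2 : Dv w f l → Red w (sp l f m') := by
    intro hdv
    obtain ⟨_, _, c, j, hc, hj, _, hlt⟩ := F.e.dv' f l hf hdv
    set R : Polynomial K := Polynomial.C c * Polynomial.X ^ j with hR
    have hRa : Polynomial.aeval l R = c • l ^ j := aeval_mono l c j
    rw [← hRa] at hlt
    set f1 := f - Polynomial.aeval l R with hf1
    have s1 : RF w l m f1 := by
      refine hU.move F H.ha (by linarith) ?_
      have : f1 - fs = (f - fs) - Polynomial.aeval l R := by rw [hf1]; abel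
      rw [this]
      exact sub_mem hq (poly_mem F m l R)
    have s2 : RF w l f1 m' := by
      refine (s1.p23 F).move F H.ha (by linarith) ?_
      rw [hf1, B_sub_aeval' F]
      exact mem_sub_comm hq'
    have s3 : RF w l m' f := by
      refine (s2.p23 F).move F H.ha (by linarith) ?_
      have : f - f1 = Polynomial.aeval l R := by rw [hf1]; abel
      rw [this]
      exact poly_mem F m' l R
    exact (s3.p23 F).2
  rcases hcase with h | h | ⟨k, R, hkR⟩
  · exact I1 h
  · exact I2 h
  · by_cases hdv : Dv w f l
    · exact I2 hdv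
    set m2 := m - Polynomial.aeval l R with hm2
    have hm2' : m2 = (1 : K) • m' + k • f := by
      rw [hm2, one_smul]
      have : m = m' + (k • f + Polynomial.aeval l R) := by rw [← hkR]; abel
      rw [this]
      abel
    have hle : dg w m2 ≤ dg w m := by
      by_contra hgt
      push Not at hgt
      have hk : k ≠ 0 := by
        intro hk
        rw [hm2', hk, zero_smul, add_zero, one_smul] at hgt
        linarith
      -- `f = k⁻¹ (m2 - m')`
      have e1 : dg w (k • f) = dg w m2 := by
        have : k • f = m2 - m' := by rw [hm2', one_smul]; abel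
        rw [this]
        exact F.d.sub_left _ _ (lt_of_le_of_lt hdle hgt)
      rw [F.d.smul k f hk] at e1
      have e2 : dg w (Polynomial.aeval l R) = dg w m2 := by
        have : Polynomial.aeval l R = m - m2 := by rw [hm2]; abel
        rw [this]
        exact F.d.sub_right _ _ hgt
      have hRd : R.natDegree ≠ 0 := by
        intro h0
        rw [F.d.poly l R hl, h0] at e2
        simp at e2
        linarith
      obtain ⟨c, j, hc, hj, e3, e4⟩ := lead F hl R hRd
      apply hdv
      refine ⟨-(k⁻¹ * c), j, hj, ?_⟩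
      have e5 : f - (-(k⁻¹ * c)) • l ^ j =
          k⁻¹ • ((m - m') - (Polynomial.aeval l R - c • l ^ j)) := by
        have : f = k⁻¹ • (k • f) := by rw [smul_smul, inv_mul_cancel₀ hk, one_smul]
        rw [hkR, add_sub_assoc, smul_add, ← this]
        rw [sub_sub_cancel, smul_smul, neg_smul, sub_neg_eq_add]
      rw [e5, F.d.smul _ _ (inv_ne_zero hk)]
      refine lt_of_le_of_lt (F.d.sub_le _ _) (max_lt ?_ ?_)
      · refine lt_of_le_of_lt (F.d.sub_le _ _) (max_lt ?_ ?_)
        · rw [e1]; exact hgt
        · rw [e1]; exact lt_of_le_of_lt hdle hgt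
      · rw [e1, ← e2]; exact e4
    have s1 : RF w l fs m2 := by
      refine (hU.p23 F).move F H.ha (by linarith) ?_
      have : m2 - m = - Polynomial.aeval l R := by rw [hm2]; abel
      rw [this]
      exact neg_mem (poly_mem F fs l R)
    have s2 : RF w l m2 f := by
      refine (s1.p23 F).move F H.ha (by linarith) ?_
      rw [hm2, B_sub_aeval' F]
      exact hq
    have s3 := (s2.p23 F).2
    rw [hm2'] at s3
    rwa [F.s.sel l f m' (k • f) 1 one_ne_zero] at s3
    rw [F.s.linmem]
    exact ⟨0, k, 0, by simp⟩

end Pool.Agent.Lib.MP_e1f7e2_al.FA.H52
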