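import Pool.Agent.Lib.MP_e1f7e2_al.FA.H52.Tools2

/-!
Project FA, module SIXC.
-/

set_option autoImplicit false

namespace Pool.Agent.Lib.MP_e1f7e2_al.FA.H52

open Pool.Agent.Lib.MP_e1f7e2_al.FA

theorem sixc (K : Type*) [Field K] (w : Fin 3 → ℝ) (_hw : Gen w) (F : Facts K w)
    (hA : SixaStatement K w) : SixcStatement K w := by
  intro ν l m f fs m' H hCI hNDlm hNDlf
  have hCI' := hCI
  obtain ⟨⟨hfr, hor, hvd, hq, hdlt, hmn, hred⟩, hq', hdle⟩ := hCI
  have hl : 0 < dg w l := F.f.pos _ _ _ hfr
  have hm : 0 < dg w m := F.f.pos _ _ _ (F.f.p12 _ _ _ hfr)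
  have hf : 0 < dg w f := F.f.pos _ _ _ (F.f.p12 _ _ _ (F.f.p23 _ _ _ hfr))
  have hfrU : Fr l m fs := (F.f.adjm l m f fs hfr (mem_sub_comm hq)).1
  have hvU : vd w (sp l m fs) < ν := by
    rw [← hvd]
    exact F.v.strict l m f fs hfr hor (mem_sub_comm hq) hdlt
  have hgdlm : Gd w l m := H.hb l m fs hfrU hvU hred hNDlm
  have hfr' : Fr l f m := F.f.p23 _ _ _ hfr
  have hncl : l * m ≠ m * l := F.f.nc _ _ _ hfr
  have hnclf : l * f ≠ f * l := F.f.nc _ _ _ hfr'
  set P := f - fs with hP
  have hPf : dg w (f - P) < dg w f := by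
    have : f - P = fs := by rw [hP]; abel
    rw [this]
    exact hdlt
  have hPd : dg w P = dg w f := F.t.dgtop f P hPf
  have hcomfl : Com w f l := com_symm F hNDlf.com
  have hcomfm : Com w f m := F.c.trans f l m hf hl hm hcomfl hNDlm.com
  have hcomPl : Com w P l := F.t.comtop f P l hf hl hPf hcomfl
  have hcomPm : Com w P m := F.t.comtop f P m hf hm hPf hcomfm
  have hne : dg w f ≠ dg w m := by
    have hor2 : Or2 w m f := F.o.or32 m f l (F.o.or3p23 _ _ _ (F.o.or3p12 _ _ _ hor))
    exact (F.o.or2com m f hm hor2 (com_symm F hcomfm)).symm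
  have hexcl : ∀ (k : K) (R : Polynomial K), P = k • m + Polynomial.aeval l R → False :=
    fun k R h => excl F hl hf hNDlm hNDlf.ngf hne hPf k R h
  rcases lt_or_gt_of_ne (F.t.ndne l f hNDlf) with hlt | hlt
  · -- `|l| < |f|`
    have hE1 : E w P l ≤ E w f l := by
      by_contra hcon
      push Not at hcon
      have hN := H.ln l m fs hfrU hred hvU hNDlm hmn P hq (by rw [hPd]; exact hf) hcomPl
        (fun hd => hNDlf.ngf (F.t.dvtop P f l (by rw [hPd]; exact hf)
          (by rw [F.d.sub_comm, hPd]; exact hPf) hd)) (by rw [hPd]; exact hdlt)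
        (by rw [show fs + P = f by rw [hP]; abel]; exact hcon)
      obtain ⟨_, k, R, hkR⟩ := hN
      exact hexcl k R hkR
    have hE2 : E w l m + min (dg w l) (dg w m) ≤ E w P l := by
      have hmax := hgdlm.lmax
      unfold Df at hmax
      rcases lt_or_gt_of_ne (F.t.ndne l m hNDlm) with h | h
      · rw [max_eq_right h.le] at hmax
        rw [min_eq_left h.le]
        rcases F.t.xe1 m l P (Ne.symm hncl) h hNDlm.ngf (by rw [F.e.comm]; linarith)
          (by rw [F.s.bcomm]; exact hq) with ⟨c, R, hcR⟩ | ⟨h1, _⟩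
        · exact (hexcl c R hcR).elim
        · rw [F.e.comm l m]
          exact h1
      · rw [max_eq_left h.le] at hmax
        rw [min_eq_right h.le]
        rcases F.t.xe2 l m P hncl h hNDlm.nfg (by linarith) hq with ⟨c, R, hcR⟩ | h1
        · exact (hexcl c R hcR).elim
        · exact h1
    have hE3 : max (dg w l) (dg w m) < E w f l := by
      have h1 := hgdlm.lmin
      unfold Df at h1
      have h2 : max (dg w l) (dg w m) + min (dg w l) (dg w m) = dg w l + dg w m :=
        max_add_min _ _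
      have h3 : 0 < min (dg w l) (dg w m) := lt_min hl hm
      linarith
    have hQ : dg w (m - m') ≤ dg w m := (F.d.sub_le _ _).trans (max_le le_rfl hdle)
    rcases F.t.xe1 f l (m - m') (Ne.symm hnclf) hlt hNDlf.ngf
      (lt_of_le_of_lt (le_max_left _ _) hE3) (by rw [F.s.bcomm]; exact hq') with ⟨c, R, hcR⟩ | ⟨_, h2⟩
    · exact hA ν l m f fs m' H hCI' (Or.inr (Or.inr ⟨c, R, hcR⟩))
    · exfalso
      have := lt_of_le_of_lt (le_max_right _ _) hE3
      linarith
  · -- `|f| < |l|`
    rcases lt_or_gt_of_ne (F.t.ndne l m hNDlm) with h | h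
    · exfalso
      obtain ⟨c, hc⟩ := good_const F hncl hNDlm hgdlm hq (by rw [hPd]; exact hlt)
        (by rw [hPd]; linarith)
      rw [hc, F.d.const] at hPd
      linarith
    · have hdv : Dv w P m := (F.t.w2 l m P hncl hNDlm hgdlm h hq (by rw [hPd]; exact hlt)
        (by rw [hPd]; exact hf) hcomPm).1
      have hdvf : Dv w f m := F.t.dvtop P f m (by rw [hPd]; exact hf)
        (by rw [F.d.sub_comm, hPd]; exact hPf) hdv
      have hmf : dg w m < dg w f := by
        obtain ⟨_, _, c', j', _, hj', hdeg', _⟩ := F.e.dv' f m hf hdvf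
        rcases Nat.lt_or_ge j' 2 with hj2 | hj2
        · exfalso
          have hj1 : j' = 1 := by omega
          rw [hj1] at hdeg'
          apply hne
          push_cast at hdeg'
          linarith
        · have : (2 : ℝ) ≤ j' := by exact_mod_cast hj2
          rw [hdeg']
          nlinarith
      have hV : Red w (sp l m f) := by
        refine Red.step _ (sp l m fs) ?_ ?_ hred
        · exact (F.f.adjm l m f fs hfr (mem_sub_comm hq)).2
        · rw [hvd]; exact hvU
      have hgd : Gd w l f := by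
        refine H.hb' l f m hfr' ?_ ?_ hNDlf
        · rw [F.s.scomm']; exact hV
        · rw [F.s.scomm']; exact hvd
      have hQ : dg w (m - m') ≤ dg w m := (F.d.sub_le _ _).trans (max_le le_rfl hdle)
      obtain ⟨c0, hc0⟩ := good_const F hnclf hNDlf hgd hq' (by linarith) (by linarith)
      refine hA ν l m f fs m' H hCI' (Or.inr (Or.inr ⟨0, Polynomial.C c0, ?_⟩))
      rw [hc0, zero_smul, zero_add, Polynomial.aeval_C, Algebra.algebraMap_eq_smul_one]

end Pool.Agent.Lib.MP_e1f7e2_al.FA.H52
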