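import Pool.Agent.Lib.MP_e1f7e2_al.FA.H52.Tools

/-!
Project FA, module SIXE.
-/

set_option autoImplicit false

namespace Pool.Agent.Lib.MP_e1f7e2_al.FA.H52

open Pool.Agent.Lib.MP_e1f7e2_al.FA

section

variable {K : Type*} [Field K] {w : Fin 3 → ℝ}

theorem Com_symm (F : Facts K w) {f g : A K 3} (h : Com w f g) : Com w g f := by
  unfold Com at h ⊢
  rw [F.e.comm, add_comm]
  exact h

/-- a good pair has only constants below the minimum -/
theorem const_of_good (F : Facts K w) {f g q : A K 3} (hnc : f * g ≠ g * f) (hnd : ND w f g)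
    (hgd : Gd w f g) (hq : q ∈ B f g) (h1 : dg w q < dg w f) (h2 : dg w q < dg w g) :
    ∃ c : K, q = c • 1 := by
  have hmax := hgd.lmax
  unfold Df at hmax
  rcases lt_or_gt_of_ne (F.t.ndne f g hnd) with h | h
  · rw [max_eq_right h.le] at hmax
    refine F.t.xe0 g f q (Ne.symm hnc) h hnd.ngf ?_ (by rwa [F.s.bcomm]) h1
    rw [F.e.comm]
    linarith
  · rw [max_eq_left h.le] at hmax
    refine F.t.xe0 f g q hnc h hnd.nfg ?_ hq h2
    linarith

end

theorem sixe (K : Type*) [Field K] (w : Fin 3 → ℝ) (_hw : Gen w) (F : Facts K w)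
    (hA : SixaStatement K w) (hC : SixcStatement K w) : SixeStatement K w := by
  intro ν l m f fs m' H hCI hlm hlf
  have hCI' := hCI
  obtain ⟨⟨hfr, hor, hvd, hq, hdlt, hmn, hred⟩, hq', hdle⟩ := hCI
  have hν : dg w l + dg w m + dg w f = ν := by rw [← hvd, F.v.eq l m f hfr hor]
  have hl : 0 < dg w l := F.f.pos _ _ _ hfr
  have hm : 0 < dg w m := F.f.pos _ _ _ (F.f.p12 _ _ _ hfr)
  have hf : 0 < dg w f := F.f.pos _ _ _ (F.f.p12 _ _ _ (F.f.p23 _ _ _ hfr))
  by_cases h1 : Dv w m l
  · exact hA ν l m f fs m' H hCI' (Or.inl h1)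
  by_cases h2 : Dv w f l
  · exact hA ν l m f fs m' H hCI' (Or.inr (Or.inl h2))
  have hU : RF w l m fs := ⟨(F.f.adjm l m f fs hfr (mem_sub_comm hq)).1, hred⟩
  -- the new configuration
  obtain ⟨_, hcomlm, c, j, hc, hj, hdeg, hlt⟩ := F.e.dv' l m hl hlm
  set R : Polynomial K := Polynomial.C c * Polynomial.X ^ j with hR
  have hRa : Polynomial.aeval m R = c • m ^ j := aeval_mono m c j
  rw [← hRa] at hlt
  set l1 := l - Polynomial.aeval m R with hl1
  have s1 : RF w m fs l1 := by
    refine ((hU.p12 F).p23 F).move F H.ha (by linarith) ?_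
    have : l1 - l = - Polynomial.aeval m R := by rw [hl1]; abel
    rw [this]
    exact neg_mem (poly_mem F fs m R)
  have s2 : RF w l1 m f := by
    refine ((s1.p23 F).p12 F).move F H.ha (by linarith) ?_
    rw [hl1, B_sub_aeval F]
    exact hq
  have s3 : RF w f m l1 := ((s2.p12 F).p23 F).p12 F
  obtain ⟨q, hqB, hqmn⟩ := F.o.mnex f m l1
  set ls := l1 + q with hls
  have s4 : RF w f m ls := by
    refine s3.move F H.ha (by linarith) ?_
    rw [hls, add_sub_cancel_left]
    exact hqB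
  have hlsd : dg w ls ≤ dg w l1 := by
    have := hqmn (-q) (neg_mem hqB)
    rwa [add_neg_cancel_right] at this
  have hnew : CI w ν f m l ls m' := by
    refine ⟨⟨?_, ?_, ?_, ?_, ?_, hqmn, s4.2⟩, ?_, hdle⟩
    · exact F.f.p12 _ _ _ (F.f.p23 _ _ _ (F.f.p12 _ _ _ hfr))
    · exact F.o.or3p12 _ _ _ (F.o.or3p23 _ _ _ (F.o.or3p12 _ _ _ hor))
    · have e : sp f m l = sp l m f := by
        rw [F.s.scomm, F.s.scomm', F.s.scomm]
      rw [e]
      exact hvd
    · have : l - ls = Polynomial.aeval m R - q := by rw [hls, hl1]; abel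
      rw [this]
      exact sub_mem (F.s.bpoly f m R) hqB
    · exact lt_of_le_of_lt hlsd hlt
    · rw [F.s.bcomm]
      exact hq'
  have hconv : Red w (sp f l m') → Red w (sp l f m') := by
    intro h
    rw [F.s.scomm]
    exact h
  by_cases h3 : Dv w m f
  · exact hconv (hA ν f m l ls m' H hnew (Or.inl h3))
  by_cases h4 : Dv w l f
  · exact hconv (hA ν f m l ls m' H hnew (Or.inr (Or.inl h4)))
  have hNDlf : ND w l f := ⟨hl, hf, hlf, h4, h2⟩
  have hNDfl : ND w f l := F.t.ndsymm _ _ hNDlf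
  have hcomfm : Com w f m := F.c.trans f l m hf hl hm (Com_symm F hlf) hcomlm
  by_cases h5 : Dv w f m
  · -- both `l`, `f` are powers of `m`
    have hml : dg w m < dg w l := by
      rcases Nat.lt_or_ge j 2 with hj2 | hj2
      · exfalso
        have hj1 : j = 1 := by omega
        rw [hj1] at hdeg
        exact h1 (F.e.dv m l 1 hm hl (Com_symm F hcomlm) (by push_cast at hdeg ⊢; linarith))
      · have : (2 : ℝ) ≤ j := by exact_mod_cast hj2
        rw [hdeg]
        nlinarith
    have hmf : dg w m < dg w f := by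
      obtain ⟨_, _, c', j', _, hj', hdeg', _⟩ := F.e.dv' f m hf h5
      rcases Nat.lt_or_ge j' 2 with hj2 | hj2
      · exfalso
        have hj1 : j' = 1 := by omega
        rw [hj1] at hdeg'
        exact h3 (F.e.dv m f 1 hm hf (Com_symm F hcomfm) (by push_cast at hdeg' ⊢; linarith))
      · have : (2 : ℝ) ≤ j' := by exact_mod_cast hj2
        rw [hdeg']
        nlinarith
    have hV : Red w (sp l m f) := by
      refine Red.step _ (sp l m fs) ?_ ?_ hred
      · exact (F.f.adjm l m f fs hfr (mem_sub_comm hq)).2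
      · exact F.v.strict l m f fs hfr hor (mem_sub_comm hq) hdlt
    have hfr' : Fr l f m := F.f.p23 _ _ _ hfr
    have hgd : Gd w l f := by
      refine H.hb' l f m hfr' ?_ ?_ hNDlf
      · rw [F.s.scomm']; exact hV
      · rw [F.s.scomm']; exact hvd
    have hQ : dg w (m - m') ≤ dg w m := (F.d.sub_le _ _).trans (max_le le_rfl hdle)
    obtain ⟨c0, hc0⟩ := const_of_good F (F.f.nc _ _ _ hfr') hNDlf hgd hq' (by linarith)
      (by linarith)
    refine hA ν l m f fs m' H hCI' (Or.inr (Or.inr ⟨0, Polynomial.C c0, ?_⟩))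
    rw [hc0, zero_smul, zero_add, Polynomial.aeval_C, Algebra.algebraMap_eq_smul_one]
  · exact hconv (hC ν f m l ls m' H hnew ⟨hf, hm, hcomfm, h5, h3⟩ hNDfl)

end Pool.Agent.Lib.MP_e1f7e2_al.FA.H52
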