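import Pool.Agent.Lib.MP_e1f7e2_al.FA.H52.Tools2

/-!
Project FA, module SIXF.
-/

set_option autoImplicit false

namespace Pool.Agent.Lib.MP_e1f7e2_al.FA.H52

open Pool.Agent.Lib.MP_e1f7e2_al.FA

theorem aeval_Cmul {K : Type*} [Field K] (l : A K 3) (k : K) (R : Polynomial K) :
    Polynomial.aeval l (Polynomial.C k * R) = k • Polynomial.aeval l R := by
  rw [map_mul, Polynomial.aeval_C, Algebra.smul_def]

theorem sixf (K : Type*) [Field K] (w : Fin 3 → ℝ) (_hw : Gen w) (F : Facts K w) :
    SixfStatement K w := by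
  intro ν l m f fs f' k H hC hcase
  obtain ⟨⟨hfr, hor, hvd, hq, hdlt, hmn, hred⟩, hk, hfm, hq', hdle⟩ := hC
  have hν : dg w l + dg w m + dg w f = ν := by rw [← hvd, F.v.eq l m f hfr hor]
  have hl : 0 < dg w l := F.f.pos _ _ _ hfr
  have hm : 0 < dg w m := F.f.pos _ _ _ (F.f.p12 _ _ _ hfr)
  have hf : 0 < dg w f := F.f.pos _ _ _ (F.f.p12 _ _ _ (F.f.p23 _ _ _ hfr))
  have hU : RF w l m fs := ⟨(F.f.adjm l m f fs hfr (mem_sub_comm hq)).1, hred⟩
  have hgd : dg w (f + k • m) = dg w m := by
    rw [F.d.add_right, F.d.smul k m hk]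
    rw [F.d.smul k m hk]
    exact hfm
  -- II.1
  have I1 : Dv w f l → Red w (sp l (f + k • m) f') := by
    intro hdv
    obtain ⟨_, _, c, j, hc, hj, _, hlt⟩ := F.e.dv' f l hf hdv
    set R : Polynomial K := Polynomial.C c * Polynomial.X ^ j with hR
    have hRa : Polynomial.aeval l R = c • l ^ j := aeval_mono l c j
    rw [← hRa] at hlt
    set f1 := f - Polynomial.aeval l R with hf1
    have s1 : RF w l m f1 := by
      refine hU.move F H.ha (by linarith) ?_
      have : f1 - fs = (f - fs) - Polynomial.aeval l R := by rw [hf1]; abel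
      rw [this]
      exact sub_mem hq (poly_mem F m l R)
    have s2 : RF w l f1 (k • m + f1) := (s1.p23 F).comb F hk (mem_lin_right F l f1)
    have hd2 : dg w (k • m + f1) = dg w m := by
      rw [F.d.add_left, F.d.smul k m hk]
      rw [F.d.smul k m hk]
      linarith
    have s3 : RF w l f1 (f + k • m) := by
      refine s2.move F H.ha (by linarith) ?_
      have : f + k • m - (k • m + f1) = Polynomial.aeval l R := by rw [hf1]; abel
      rw [this]
      exact poly_mem F f1 l R
    have s4 : RF w l (f + k • m) f' := by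
      refine (s3.p23 F).move F H.ha (by linarith) ?_
      have : f' - f1 = Polynomial.aeval l R - (f - f') := by rw [hf1]; abel
      rw [this]
      exact sub_mem (poly_mem F _ l R) hq'
    exact s4.2
  rcases hcase with h | h | h
  · exact I1 h
  · apply I1
    have hPf : dg w (f - (f - fs)) < dg w f := by
      rw [sub_sub_cancel]
      exact hdlt
    have hPd : dg w (f - fs) = dg w f := F.t.dgtop f _ hPf
    obtain ⟨R, hR⟩ := F.t.fr1 l m (f - fs) hl hm h hq (by rw [hPd]; exact hfm)
    refine dv_of_poly F hl R hf ?_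
    rw [← hR]
    exact hPf
  · obtain ⟨_, _, c, j, hc, hj, _, hlt⟩ := F.e.dv' m l hm h
    set R : Polynomial K := Polynomial.C c * Polynomial.X ^ j with hR
    have hRa : Polynomial.aeval l R = c • l ^ j := aeval_mono l c j
    rw [← hRa] at hlt
    set m1 := m - Polynomial.aeval l R with hm1
    have s1 : RF w l fs m1 := by
      refine (hU.p23 F).move F H.ha (by linarith) ?_
      have : m1 - m = - Polynomial.aeval l R := by rw [hm1]; abel
      rw [this]
      exact neg_mem (poly_mem F fs l R)
    have s2 : RF w l m1 f := by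
      refine (s1.p23 F).move F H.ha (by linarith) ?_
      rw [hm1, B_sub_aeval' F]
      exact hq
    have s3 : RF w l f (k • m1 + f) := (s2.p23 F).comb F hk (mem_lin_right F l f)
    have hd3 : dg w (k • m1 + f) < dg w m := by
      refine lt_of_le_of_lt (F.d.add_le _ _) (max_lt ?_ hfm)
      rw [F.d.smul k _ hk]
      exact hlt
    have hg1 : k • m1 + f = (f + k • m) - Polynomial.aeval l (Polynomial.C k * R) := by
      rw [aeval_Cmul, hm1, smul_sub]
      abel
    have s4 : RF w l (k • m1 + f) f' := by
      refine (s3.p23 F).move F H.ha (by linarith) ?_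
      rw [hg1, B_sub_aeval' F]
      exact mem_sub_comm hq'
    have s5 : RF w l f' (f + k • m) := by
      refine (s4.p23 F).move F H.ha (by linarith) ?_
      rw [hg1, sub_sub_cancel]
      exact poly_mem F f' l _
    exact (s5.p23 F).2

end Pool.Agent.Lib.MP_e1f7e2_al.FA.H52
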