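import Pool.Agent.Lib.MP_e1f7e2_al.FA.H52.Tools2

/-!
Project FA, module SIXG.
-/

set_option autoImplicit false

namespace Pool.Agent.Lib.MP_e1f7e2_al.FA.H52

open Pool.Agent.Lib.MP_e1f7e2_al.FA

section

variable {K : Type*} [Field K] {w : Fin 3 → ℝ}

theorem dv_smul_right (F : Facts K w) {l m : A K 3} {k : K} (hk : k ≠ 0) (h : Dv w l m) :
    Dv w l (k • m) := by
  obtain ⟨c, j, hj, hlt⟩ := h
  refine ⟨c * (k ^ j)⁻¹, j, hj, ?_⟩
  have : (c * (k ^ j)⁻¹) • (k • m) ^ j = c • m ^ j := by
    rw [smul_pow, smul_smul, mul_assoc, inv_mul_cancel₀ (pow_ne_zero _ hk), mul_one]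
  rw [this]
  exact hlt

theorem dv_smul_right' (F : Facts K w) {l m : A K 3} {k : K} (hk : k ≠ 0)
    (h : Dv w l (k • m)) : Dv w l m := by
  have := dv_smul_right F (inv_ne_zero hk) h
  rwa [smul_smul, inv_mul_cancel₀ hk, one_smul] at this

theorem nd_smul (F : Facts K w) {m l : A K 3} {k : K} (hk : k ≠ 0) (h : ND w m l) :
    ND w (k • m) l := by
  refine ⟨by rw [F.d.smul k m hk]; exact h.pf, h.pg, ?_, ?_, ?_⟩
  · have := h.com
    unfold Com at this ⊢
    rw [F.e.smul k m l hk, F.d.smul k m hk]
    exact this
  · intro hd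
    exact h.nfg ((F.t.dvsmul m l k hk h.pf).1 hd)
  · intro hd
    exact h.ngf (dv_smul_right' F hk hd)

end

theorem sixg (K : Type*) [Field K] (w : Fin 3 → ℝ) (_hw : Gen w) (F : Facts K w)
    (hA : SixaStatement K w) : SixgStatement K w := by
  intro ν l m f fs f' k H hC hnd hcase
  obtain ⟨⟨hfr, hor, hvd, hq, hdlt, hmn, hred⟩, hk, hfm, hq', hdle⟩ := hC
  have hν : dg w l + dg w m + dg w f = ν := by rw [← hvd, F.v.eq l m f hfr hor]
  have hl : 0 < dg w l := F.f.pos _ _ _ hfr
  have hm : 0 < dg w m := F.f.pos _ _ _ (F.f.p12 _ _ _ hfr)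
  have hf : 0 < dg w f := F.f.pos _ _ _ (F.f.p12 _ _ _ (F.f.p23 _ _ _ hfr))
  have hU : RF w l m fs := ⟨(F.f.adjm l m f fs hfr (mem_sub_comm hq)).1, hred⟩
  have hkm : dg w (k • m) = dg w m := F.d.smul k m hk
  have hgd : dg w (f + k • m) = dg w m := by
    rw [F.d.add_right, hkm]
    rw [hkm]
    exact hfm
  have hgtop : dg w (k • m - (f + k • m)) < dg w (k • m) := by
    have : k • m - (f + k • m) = - f := by abel
    rw [this, F.d.neg, hkm]
    exact hfm
  have hBg : B (f + k • m) f = B m f := by
    have := F.s.bel m f k Polynomial.X hk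
    rw [Polynomial.aeval_X, add_comm] at this
    exact this
  have hspg : sp l f (f + k • m) = sp l f m := by
    rw [add_comm]
    exact F.s.sel l f m f k hk (mem_lin_right F l f)
  rcases hcase with hlm | hND
  · -- II.4
    obtain ⟨_, hcomlm, c, j, hc, hj, hdeg, hlt⟩ := F.e.dv' l m hl hlm
    set R : Polynomial K := Polynomial.C c * Polynomial.X ^ j with hR
    have hRa : Polynomial.aeval m R = c • m ^ j := aeval_mono m c j
    rw [← hRa] at hlt
    set l1 := l - Polynomial.aeval m R with hl1
    have s1 : RF w m fs l1 := by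
      refine ((hU.p12 F).p23 F).move F H.ha (by linarith) ?_
      have : l1 - l = - Polynomial.aeval m R := by rw [hl1]; abel
      rw [this]
      exact neg_mem (poly_mem F fs m R)
    have s2 : RF w l1 m f := by
      refine ((s1.p23 F).p12 F).move F H.ha (by linarith) ?_
      rw [hl1, B_sub_aeval F]
      exact hq
    -- the frame `(g, f, l1)`
    have s3 : RF w l1 f (k • m + f) := (s2.p23 F).comb F hk (mem_lin_right F l1 f)
    rw [add_comm] at s3
    have s4 : RF w (f + k • m) f l1 := ((s3.p23 F).p12 F).p23 F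
    obtain ⟨q, hqB, hqmn⟩ := F.o.mnex (f + k • m) f l1
    set ls := l1 + q with hls
    have s5 : RF w (f + k • m) f ls := by
      refine s4.move F H.ha (by linarith) ?_
      rw [hls, add_sub_cancel_left]
      exact hqB
    have hlsd : dg w ls ≤ dg w l1 := by
      have := hqmn (-q) (neg_mem hqB)
      rwa [add_neg_cancel_right] at this
    have hfrg : Fr (f + k • m) f l := by
      have h1 : Fr l f (f + k • m) := F.f.frsp _ _ _ _ _ _ (F.f.p23 _ _ _ hfr) hspg.symm
      exact F.f.p23 _ _ _ (F.f.p12 _ _ _ (F.f.p23 _ _ _ h1))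
    have hspg2 : sp (f + k • m) f l = sp l m f := by
      rw [F.s.scomm', F.s.scomm, F.s.scomm', hspg, F.s.scomm']
    have horg : Or3 w (f + k • m) f l := by
      intro a b c d
      have e : a • (f + k • m) + b • f + c • l + d • (1 : A K 3) =
          c • l + (a * k) • m + (a + b) • f + d • 1 := by
        rw [smul_add, smul_smul, add_smul]
        abel
      obtain ⟨o1, o2, o3⟩ := hor c (a * k) (a + b) d
      rw [← e] at o1 o2 o3
      refine ⟨fun ha => ?_, fun hb => ?_, o1⟩
      · rw [hgd]
        exact o2 (mul_ne_zero ha hk)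
      · by_cases hab : a + b = 0
        · have ha : a ≠ 0 := fun ha => hb (by rw [ha, zero_add] at hab; exact hab)
          exact hfm.le.trans (o2 (mul_ne_zero ha hk))
        · exact o3 hab
    have hnew : CI w ν (f + k • m) f l ls f' := by
      refine ⟨⟨hfrg, horg, ?_, ?_, lt_of_le_of_lt hlsd hlt, hqmn, s5.2⟩, ?_, hdle⟩
      · rw [hspg2]; exact hvd
      · have : l - ls = Polynomial.aeval m R - q := by rw [hls, hl1]; abel
        rw [this, hBg]
        rw [hBg] at hqB
        exact sub_mem (poly_mem F f m R) hqB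
      · rw [F.s.bcomm]
        exact hq'
    have hdvg : Dv w l (f + k • m) :=
      F.t.dvtop' l (k • m) (f + k • m) hl hgtop (dv_smul_right F hk hlm)
    have := hA ν (f + k • m) f l ls f' H hnew (Or.inr (Or.inl hdvg))
    rw [F.s.scomm] at this
    exact this
  · -- II.5
    have hncl : l * m ≠ m * l := F.f.nc _ _ _ hfr
    have hvU : vd w (sp l m fs) < ν := by
      rw [← hvd]
      exact F.v.strict l m f fs hfr hor (mem_sub_comm hq) hdlt
    have hgdlm : Gd w l m := H.hb l m fs hU.1 hvU hred hND
    set P := f - fs with hP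
    have hPf : dg w (f - P) < dg w f := by
      have : f - P = fs := by rw [hP]; abel
      rw [this]
      exact hdlt
    have hPd : dg w P = dg w f := F.t.dgtop f P hPf
    have hPnd : ¬ Dv w P l := by
      intro hd
      apply hnd
      refine F.t.dvtop P f l (by rw [hPd]; exact hf) ?_ hd
      rw [F.d.sub_comm, hPd]
      exact hPf
    have hlm : dg w l < dg w m := by
      rcases lt_or_gt_of_ne (F.t.ndne l m hND) with h | h
      · exact h
      · exfalso
        obtain ⟨c, hc⟩ := good_const F hncl hND hgdlm hq (by rw [hPd]; linarith)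
          (by rw [hPd]; exact hfm)
        rw [hc, F.d.const] at hPd
        linarith
    have hNDm : ND w m l := F.t.ndsymm _ _ hND
    have hGdm : Gd w m l := F.t.gdsymm _ _ hgdlm
    have hqm : P ∈ B m l := by rw [F.s.bcomm]; exact hq
    obtain ⟨a, R, hPa, hRle, haE⟩ := F.t.w1 m l P (Ne.symm hncl) hNDm hGdm hlm hqm
      (by rw [hPd]; exact hfm)
    have ha : a ≠ 0 := by
      intro ha
      rw [ha, zero_smul, zero_add] at hPa
      exact hPnd (dv_of_poly F hl R (by rw [hPd]; exact hf)
        (by rw [← hPa, sub_self, F.d.zero, hPd]; exact hf))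
    have hmax := F.e.ncadd m l a R (Ne.symm hncl) ha
    rw [← hPa, hPd] at hmax
    have hEle : E w m l ≤ dg w f := by rw [hmax]; exact le_max_left _ _
    have hRE : dg w (Polynomial.aeval l R) ≤ E w m l := by
      by_contra hcon
      push Not at hcon
      apply hPnd
      refine dv_of_poly F hl R (by rw [hPd]; exact hf) ?_
      have e1 : P - Polynomial.aeval l R = a • (m * l - l * m) := by rw [hPa]; abel
      rw [e1, F.d.smul a _ ha, hPd, hmax, max_eq_right hcon.le]
      exact hcon
    have hfE : dg w f = E w m l := by rw [hmax, max_eq_left hRE]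
    have hncom : ¬ Com w f l := by
      intro hcom
      have hcomP : Com w P l := F.t.comtop f P l hf hl hPf hcom
      exact hPnd (F.t.w2 m l P (Ne.symm hncl) hNDm hGdm hlm hqm (by rw [hPd]; exact hfm)
        (by rw [hPd]; exact hf) hcomP).1
    have hEfl : E w f l = dg w f + dg w l := by
      unfold Com at hncom
      push Not at hncom
      exact le_antisymm (F.e.le f l) hncom
    have hEg : E w (f + k • m) l = dg w f + dg w l := by
      rw [F.e.add_left f (k • m) l, hEfl]
      rw [F.e.smul k m l hk, hEfl, ← hfE]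
      linarith
    have hNDg : ND w (f + k • m) l := F.t.ndtop (k • m) (f + k • m) l hgtop (nd_smul F hk hNDm)
    have hncg : (f + k • m) * l ≠ l * (f + k • m) := by
      intro h
      have := F.e.zero _ _ h
      rw [hEg] at this
      linarith
    have hQle : dg w (f - f') ≤ dg w f := (F.d.sub_le _ _).trans (max_le le_rfl hdle)
    rcases F.t.xe1 (f + k • m) l (f - f') hncg (by rw [hgd]; exact hlm) hNDg.nfg
      (by rw [hEg]; linarith) (by rw [F.s.bcomm]; exact hq') with ⟨c, R2, hcR⟩ | ⟨_, h2⟩
    · have hc : c = 0 := by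
        by_contra hc
        have := (F.t.nd1 (f + k • m) l c R2 hNDg hc).1
        rw [← hcR, hgd] at this
        have h3 := le_max_left (dg w m) (dg w (Polynomial.aeval l R2))
        linarith
      rw [hc, zero_smul, zero_add] at hcR
      have hR2 : dg w (Polynomial.aeval l R2) < dg w m := by
        rw [← hcR]
        linarith
      set m2 := m - Polynomial.aeval l (Polynomial.C (-k⁻¹) * R2) with hm2
      have haev : Polynomial.aeval l (Polynomial.C (-k⁻¹) * R2) =
          (-k⁻¹) • Polynomial.aeval l R2 := by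
        rw [map_mul, Polynomial.aeval_C, Algebra.smul_def]
      have s1 : RF w l fs m2 := by
        refine (hU.p23 F).move F H.ha (by linarith) ?_
        have : m2 - m = - Polynomial.aeval l (Polynomial.C (-k⁻¹) * R2) := by rw [hm2]; abel
        rw [this]
        exact neg_mem (poly_mem F fs l _)
      have hm2d : dg w m2 ≤ dg w m := by
        rw [hm2]
        refine (F.d.sub_le _ _).trans (max_le le_rfl ?_)
        rw [haev]
        exact (F.d.smul_le _ _).trans hR2.le
      have s2 : RF w l m2 f' := by
        refine (s1.p23 F).move F H.ha (by linarith) ?_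
        rw [hm2, B_sub_aeval' F]
        have : f' - fs = P - (f - f') := by rw [hP]; abel
        rw [this, hcR]
        exact sub_mem hq (poly_mem F m l R2)
      have s3 : RF w l f' (k • m2 + f') := (s2.p23 F).comb F hk (mem_lin_right F l f')
      have e2 : k • m2 + f' = f + k • m := by
        rw [hm2, haev, smul_sub, smul_smul, ← hcR]
        have : k * -k⁻¹ = -1 := by rw [mul_neg, mul_inv_cancel₀ hk]
        rw [this, neg_smul, one_smul]
        abel
      rw [e2] at s3
      exact (s3.p23 F).2
    · exfalso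
      rw [hEg] at h2
      linarith

end Pool.Agent.Lib.MP_e1f7e2_al.FA.H52
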