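import Pool.Agent.Lib.MP_e1f7e2_al.FA.H52.Tools

/-!
Project FA, module SIXI.
-/

set_option autoImplicit false

namespace Pool.Agent.Lib.MP_e1f7e2_al.FA.H52

open Pool.Agent.Lib.MP_e1f7e2_al.FA

theorem sixi (K : Type*) [Field K] (w : Fin 3 → ℝ) (_hw : Gen w) (F : Facts K w)
    (hA : SixaStatement K w) (hB : SixbStatement K w) (hC : SixcStatement K w)
    (hD : SixdStatement K w) (hE : SixeStatement K w) : SixiStatement K w := by
  intro ν l m f fs m' H hCI
  have hfr := hCI.c6.fr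
  have hl : 0 < dg w l := F.f.pos _ _ _ hfr
  have hm : 0 < dg w m := F.f.pos _ _ _ (F.f.p12 _ _ _ hfr)
  have hf : 0 < dg w f := F.f.pos _ _ _ (F.f.p12 _ _ _ (F.f.p23 _ _ _ hfr))
  by_cases h1 : Dv w m l
  · exact hA ν l m f fs m' H hCI (Or.inl h1)
  by_cases h2 : Dv w f l
  · exact hA ν l m f fs m' H hCI (Or.inr (Or.inl h2))
  by_cases h3 : Com w l f
  · by_cases h4 : Com w l m
    · by_cases h5 : Dv w l m
      · exact hE ν l m f fs m' H hCI h5 h3
      · have hND : ND w l m := ⟨hl, hm, h4, h5, h1⟩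
        by_cases h6 : Dv w l f
        · exact (hD.1 ν l m f fs H hCI.c6 hND h6).elim
        · exact hC ν l m f fs m' H hCI hND ⟨hl, hf, h3, h6, h2⟩
    · exact (h2 (hD.2 ν l m f fs hCI.c6 h4 h3)).elim
  · exact hB ν l m f fs m' H hCI h1 h2 h3

end Pool.Agent.Lib.MP_e1f7e2_al.FA.H52
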