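import Pool.Agent.Lib.MP_e1f7e2_al.FA.Iface

/-!
Project FA: small tools for sections 4 - 6 (moves of frames).
-/

set_option autoImplicit false

namespace Pool.Agent.Lib.MP_e1f7e2_al.FA.H52

open Pool.Agent.Lib.MP_e1f7e2_al.FA

/-- a frame of a vertex in `S` -/
def RF {K : Type*} [Field K] (w : Fin 3 → ℝ) (f g h : A K 3) : Prop :=
  Fr f g h ∧ Red w (sp f g h)

section

variable {K : Type*} [Field K] {w : Fin 3 → ℝ}

theorem RF.p12 (F : Facts K w) {f g h : A K 3} (H : RF w f g h) : RF w g f h :=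
  ⟨F.f.p12 _ _ _ H.1, by rw [F.s.scomm]; exact H.2⟩

theorem RF.p23 (F : Facts K w) {f g h : A K 3} (H : RF w f g h) : RF w f h g :=
  ⟨F.f.p23 _ _ _ H.1, by rw [F.s.scomm']; exact H.2⟩

/-- the basic move (hypothesis (A)) -/
theorem RF.move (F : Facts K w) {ν : ℝ} (ha : HA K w ν) {f g h h' : A K 3} (H : RF w f g h)
    (hlt : dg w f + dg w g + dg w h < ν) (hq : h' - h ∈ B f g) : RF w f g h' := by
  obtain ⟨h1, h2⟩ := F.f.adjm f g h h' H.1 hq
  exact ⟨h1, ha _ _ (lt_of_le_of_lt (F.v.le f g h H.1) hlt) H.2 h2⟩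

theorem RF.movev (F : Facts K w) {ν : ℝ} (ha : HA K w ν) {f g h h' : A K 3} (H : RF w f g h)
    (hlt : vd w (sp f g h) < ν) (hq : h' - h ∈ B f g) : RF w f g h' := by
  obtain ⟨h1, h2⟩ := F.f.adjm f g h h' H.1 hq
  exact ⟨h1, ha _ _ hlt H.2 h2⟩

theorem mem_sub_comm {S : Subalgebra K (A K 3)} {a b : A K 3} (h : a - b ∈ S) : b - a ∈ S := by
  have := S.neg_mem h
  rwa [neg_sub] at this

/-- leading terms -/
theorem lead (F : Facts K w) {g : A K 3} (hg : 0 < dg w g) (R : Polynomial K)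
    (hR : R.natDegree ≠ 0) : ∃ (c : K) (j : ℕ), c ≠ 0 ∧ 1 ≤ j ∧
      dg w (Polynomial.aeval g R) = j * dg w g ∧
      dg w (Polynomial.aeval g R - c • g ^ j) < dg w (Polynomial.aeval g R) := by
  have hR0 : R ≠ 0 := fun h => hR (by rw [h, Polynomial.natDegree_zero])
  refine ⟨R.leadingCoeff, R.natDegree, Polynomial.leadingCoeff_ne_zero.2 hR0,
    Nat.one_le_iff_ne_zero.2 hR, F.d.poly g R hg, ?_⟩
  have h1 : Polynomial.aeval g R - R.leadingCoeff • g ^ R.natDegree =
      Polynomial.aeval g R.eraseLead := by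
    conv_lhs => rw [← R.eraseLead_add_monomial_natDegree_leadingCoeff]
    rw [map_add, Polynomial.aeval_monomial, Algebra.smul_def]
    rw [R.eraseLead_add_monomial_natDegree_leadingCoeff]
    abel
  rw [h1, F.d.poly g _ hg, F.d.poly g _ hg]
  apply mul_lt_mul_of_pos_right _ hg
  rcases R.eraseLead_natDegree_lt_or_eraseLead_eq_zero with h | h
  · exact_mod_cast h
  · rw [h, Polynomial.natDegree_zero]
    exact_mod_cast Nat.pos_of_ne_zero hR

/-- `a • g ^ j` as a value of a polynomial -/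
theorem aeval_mono (g : A K 3) (c : K) (j : ℕ) :
    Polynomial.aeval g (Polynomial.C c * Polynomial.X ^ j) = c • g ^ j := by
  rw [map_mul, Polynomial.aeval_C, map_pow, Polynomial.aeval_X, Algebra.smul_def]

theorem B_sub_aeval (F : Facts K w) (f g : A K 3) (R : Polynomial K) :
    B (f - Polynomial.aeval g R) g = B f g := by
  have := F.s.bel f g 1 (-R) one_ne_zero
  rwa [map_neg, one_smul, ← sub_eq_add_neg] at this

theorem B_sub_aeval' (F : Facts K w) (f g : A K 3) (R : Polynomial K) :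
    B g (f - Polynomial.aeval g R) = B g f := by
  rw [F.s.bcomm, B_sub_aeval F, F.s.bcomm]

theorem poly_mem (F : Facts K w) (f g : A K 3) (R : Polynomial K) :
    Polynomial.aeval g R ∈ B g f := by
  rw [F.s.bcomm]
  exact F.s.bpoly f g R

end

end Pool.Agent.Lib.MP_e1f7e2_al.FA.H52
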