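import Pool.Agent.Lib.MP_e1f7e2_al.FA.H52.Tools

/-!
Project FA: more tools for section 6.
-/

set_option autoImplicit false

namespace Pool.Agent.Lib.MP_e1f7e2_al.FA.H52

open Pool.Agent.Lib.MP_e1f7e2_al.FA

section

variable {K : Type*} [Field K] {w : Fin 3 → ℝ}

theorem com_symm (F : Facts K w) {f g : A K 3} (h : Com w f g) : Com w g f := by
  unfold Com at h ⊢
  rw [F.e.comm, add_comm]
  exact h

/-- a good pair has only constants below the minimum -/
theorem good_const (F : Facts K w) {f g q : A K 3} (hnc : f * g ≠ g * f) (hnd : ND w f g)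
    (hgd : Gd w f g) (hq : q ∈ B f g) (h1 : dg w q < dg w f) (h2 : dg w q < dg w g) :
    ∃ c : K, q = c • 1 := by
  have hmax := hgd.lmax
  unfold Df at hmax
  rcases lt_or_gt_of_ne (F.t.ndne f g hnd) with h | h
  · rw [max_eq_right h.le] at hmax
    refine F.t.xe0 g f q (Ne.symm hnc) h hnd.ngf ?_ (by rwa [F.s.bcomm]) h1
    rw [F.e.comm]
    linarith
  · rw [max_eq_left h.le] at hmax
    refine F.t.xe0 f g q hnc h hnd.nfg ?_ hq h2
    linarith

theorem RF.comb (F : Facts K w) {a b c r : A K 3} {k : K} (H : RF w a b c) (hk : k ≠ 0)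
    (hr : r ∈ lin a b) : RF w a b (k • c + r) := by
  have e := F.s.sel a b c r k hk hr
  exact ⟨F.f.frsp _ _ _ _ _ _ H.1 e.symm, by rw [e]; exact H.2⟩

theorem mem_lin_right (F : Facts K w) (a b : A K 3) : b ∈ lin a b := by
  rw [F.s.linmem]
  exact ⟨0, 1, 0, by simp⟩

theorem mem_lin_left (F : Facts K w) (a b : A K 3) : a ∈ lin a b := by
  rw [F.s.linmem]
  exact ⟨1, 0, 0, by simp⟩

/-- elements with the top of a polynomial in `l` are divisible -/
theorem dv_of_poly (F : Facts K w) {l P : A K 3} (hl : 0 < dg w l) (R : Polynomial K)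
    (hP : 0 < dg w P) (h : dg w (P - Polynomial.aeval l R) < dg w P) : Dv w P l := by
  have h1 : dg w (Polynomial.aeval l R) = dg w P := F.t.dgtop P _ h
  have hR : R.natDegree ≠ 0 := by
    intro h0
    have := F.d.poly l R hl
    rw [h0] at this
    simp at this
    linarith
  obtain ⟨c, j, hc, hj, e1, e2⟩ := lead F hl R hR
  refine ⟨c, j, hj, ?_⟩
  have : P - c • l ^ j = (P - Polynomial.aeval l R) + (Polynomial.aeval l R - c • l ^ j) := by abel
  rw [this]
  refine lt_of_le_of_lt (F.d.add_le _ _) (max_lt h ?_)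
  rw [← h1]
  exact e2

/-- `P = k m + R(l)` is impossible for an element with the top of `f` -/
theorem excl (F : Facts K w) {l m f P : A K 3} (hl : 0 < dg w l) (hf : 0 < dg w f)
    (hnd : ND w l m) (hfl : ¬ Dv w f l) (hne : dg w f ≠ dg w m)
    (hP : dg w (f - P) < dg w f) (k : K) (R : Polynomial K)
    (h : P = k • m + Polynomial.aeval l R) : False := by
  have hPd : dg w P = dg w f := F.t.dgtop f P hP
  have key : Dv w P l → False := by
    intro hd
    apply hfl
    refine F.t.dvtop P f l (by rw [hPd]; exact hf) ?_ hd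
    rw [F.d.sub_comm, hPd]
    exact hP
  by_cases hk : k = 0
  · apply key
    refine dv_of_poly F hl R (by rw [hPd]; exact hf) ?_
    rw [h, hk, zero_smul, zero_add, sub_self, F.d.zero, ← zero_add (Polynomial.aeval l R),
      ← zero_smul K m, ← hk, ← h, hPd]
    exact hf
  · obtain ⟨e1, e2⟩ := F.t.nd1 m l k R (F.t.ndsymm _ _ hnd) hk
    rw [← h] at e1
    rcases lt_or_gt_of_ne e2 with e3 | e3
    · apply key
      refine dv_of_poly F hl R (by rw [hPd]; exact hf) ?_
      have : P - Polynomial.aeval l R = k • m := by rw [h]; abel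
      rw [this, F.d.smul k m hk, e1, max_eq_right e3.le]
      exact e3
    · rw [max_eq_left e3.le, hPd] at e1
      exact hne e1

end

end Pool.Agent.Lib.MP_e1f7e2_al.FA.H52
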